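import Pool.Agent.L7h86.RE.Stm

/-!
# Project RE: S_KER (facts on the kernel)
-/

set_option autoImplicit false

open Set Filter Topology Metric Function MeasureTheory
open scoped ContDiff RealInnerProductSpace

noncomputable section

namespace Pool.Agent.L7h77.RE

open Pool.Agent.L7h86.RE

theorem th_contDiff (κ : ℝ) : ContDiff ℝ ∞ (th κ) := by
  unfold th
  exact Real.smoothTransition.contDiff.comp ((contDiff_const.sub contDiff_id).div_const κ)

theorem th_antitone {κ : ℝ} (hκ : 0 < κ) : Antitone (th κ) := by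
  intro x y hxy
  unfold th
  apply Real.smoothTransition.monotone
  gcongr

theorem th_one {κ : ℝ} (hκ : 0 < κ) {t : ℝ} (ht : t ≤ 1 - κ) : th κ t = 1 := by
  unfold th
  apply Real.smoothTransition.one_of_one_le
  rw [le_div_iff₀ hκ]
  linarith

theorem th_zero {κ : ℝ} (hκ : 0 < κ) {t : ℝ} (ht : 1 ≤ t) : th κ t = 0 := by
  unfold th
  apply Real.smoothTransition.zero_of_nonpos
  exact div_nonpos_of_nonpos_of_nonneg (by linarith) hκ.le

theorem dth_nonpos {κ : ℝ} (hκ : 0 < κ) (t : ℝ) : deriv (th κ) t ≤ 0 :=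
  (th_antitone hκ).deriv_nonpos

theorem dth_zero {κ : ℝ} (hκ : 0 < κ) {t : ℝ} (ht : t < 1 - κ ∨ 1 < t) : deriv (th κ) t = 0 := by
  rcases ht with ht | ht
  · have h : th κ =ᶠ[𝓝 t] fun _ => (1 : ℝ) := by
      filter_upwards [gt_mem_nhds ht] with x hx
      exact th_one hκ hx.le
    rw [h.deriv_eq]
    simp
  · have h : th κ =ᶠ[𝓝 t] fun _ => (0 : ℝ) := by
      filter_upwards [lt_mem_nhds ht] with x hx
      exact th_zero hκ (le_of_lt hx)
    rw [h.deriv_eq]
    simp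

theorem dth_cont (κ : ℝ) : Continuous (deriv (th κ)) :=
  (th_contDiff κ).continuous_deriv (by simp)

variable {n : ℕ}

theorem ph_contDiff (κ : ℝ) : ContDiff ℝ ∞ (ph κ : E n → ℝ) := by
  unfold ph
  exact (th_contDiff κ).comp (contDiff_norm_sq ℝ)

theorem ph_zero {κ : ℝ} (hκ : 0 < κ) {s : E n} (hs : 1 ≤ ‖s‖) : ph κ s = 0 := by
  unfold ph
  exact th_zero hκ (by nlinarith [norm_nonneg s])

theorem ph_pos {κ : ℝ} (hκ : 0 < κ) (s : E n) : 0 < ph κ s ↔ ‖s‖ < 1 := by
  constructor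
  · intro h
    by_contra hs
    rw [ph_zero hκ (not_lt.1 hs)] at h
    exact lt_irrefl _ h
  · intro h
    unfold ph th
    apply Real.smoothTransition.pos_of_pos
    apply div_pos _ hκ
    nlinarith [norm_nonneg s]

theorem ph_cpt {κ : ℝ} (hκ : 0 < κ) : HasCompactSupport (ph κ : E n → ℝ) := by
  refine HasCompactSupport.intro (isCompact_closedBall (0 : E n) 1) ?_
  intro s hs
  apply ph_zero hκ
  rw [mem_closedBall, dist_zero_right] at hs
  linarith

theorem gg_supp {κ : ℝ} (hκ : 0 < κ) (s : E n) (h : gg κ s ≠ 0) :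
    1 - κ ≤ ‖s‖ ^ 2 ∧ ‖s‖ ≤ 1 := by
  have h1 : deriv (th κ) (‖s‖ ^ 2) ≠ 0 := by
    intro h0
    apply h
    simp [gg, h0]
  constructor
  · by_contra h2
    exact h1 (dth_zero hκ (Or.inl (not_le.1 h2)))
  · by_contra h2
    apply h1
    apply dth_zero hκ
    right
    nlinarith [not_le.1 h2]

theorem gg_cpt {κ : ℝ} (hκ : 0 < κ) : HasCompactSupport (gg κ : E n → ℝ) := by
  refine HasCompactSupport.intro (isCompact_closedBall (0 : E n) 1) ?_
  intro s hs
  by_contra h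
  apply hs
  rw [mem_closedBall, dist_zero_right]
  exact (gg_supp hκ s h).2

theorem gg_cont (κ : ℝ) : Continuous (gg κ : E n → ℝ) := by
  unfold gg
  exact continuous_const.mul ((dth_cont κ).comp (continuous_norm.pow 2))

theorem gg_nonneg {κ : ℝ} (hκ : 0 < κ) (s : E n) : 0 ≤ gg κ s := by
  unfold gg
  nlinarith [dth_nonpos hκ (‖s‖ ^ 2)]

theorem ph_fderiv (κ : ℝ) (s ν : E n) : fderiv ℝ (ph κ) s ν = -(⟪ν, s⟫ * gg κ s) := by
  have h1 : HasFDerivAt (fun x : E n => ‖x‖ ^ 2) (2 • (innerSL ℝ s)) s := by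
    have := (hasStrictFDerivAt_norm_sq s).hasFDerivAt
    simpa using this
  have h2 : HasDerivAt (th κ) (deriv (th κ) (‖s‖ ^ 2)) (‖s‖ ^ 2) :=
    ((th_contDiff κ).differentiable (by simp) _).hasDerivAt
  have h3 : HasFDerivAt (ph κ : E n → ℝ) (deriv (th κ) (‖s‖ ^ 2) • (2 • (innerSL ℝ s))) s :=
    h2.comp_hasFDerivAt s h1
  rw [h3.fderiv]
  simp only [_root_.smul_apply, innerSL_apply_apply, smul_eq_mul, nsmul_eq_mul,
    Nat.cast_ofNat, gg]
  rw [real_inner_comm]
  ring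

theorem int_odd (F : E n → ℝ) (hF : ∀ s, F (-s) = -F s) : ∫ s, F s = 0 := by
  have h1 : ∫ s, F (-s) = ∫ s, F s := integral_neg_eq_self F volume
  have h2 : ∫ s, F (-s) = -∫ s, F s := by
    rw [← integral_neg]
    congr 1
    funext s
    exact hF s
  linarith

theorem inner_gg (κ : ℝ) (ν : E n) : ∫ s : E n, ⟪ν, s⟫ * gg κ s = 0 := by
  apply int_odd
  intro s
  rw [inner_neg_right, gg, gg, norm_neg]
  ring

theorem cont_inner (ν : E n) : Continuous fun s : E n => ⟪ν, s⟫ :=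
  continuous_const.inner continuous_id

theorem inner_sq_gg {κ : ℝ} (hκ : 0 < κ) (ν : E n) (hν : ‖ν‖ = 1) :
    ∫ s : E n, ⟪ν, s⟫ ^ 2 * gg κ s = ZZ n κ := by
  have hl : ∀ s : E n, fderiv ℝ (fun s : E n => ⟪ν, s⟫) s ν = 1 := by
    intro s
    have h : HasFDerivAt (fun s : E n => ⟪ν, s⟫) (innerSL ℝ ν) s := (innerSL ℝ ν).hasFDerivAt
    rw [h.fderiv]
    simp [hν]
  have hph : Continuous (ph κ : E n → ℝ) := (ph_contDiff κ).continuous
  have key := integral_mul_fderiv_eq_neg_fderiv_mul_of_integrable (μ := volume)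
    (f := fun s : E n => ⟪ν, s⟫) (g := (ph κ : E n → ℝ)) (v := ν) ?_ ?_ ?_ ?_ ?_
  · have h1 : ∀ s : E n, ⟪ν, s⟫ * fderiv ℝ (ph κ) s ν = -(⟪ν, s⟫ ^ 2 * gg κ s) := by
      intro s
      rw [ph_fderiv]
      ring
    simp_rw [h1, hl, one_mul] at key
    rw [integral_neg] at key
    unfold ZZ
    linarith
  · simp_rw [hl, one_mul]
    exact hph.integrable_of_hasCompactSupport (ph_cpt hκ)
  · have h1 : (fun s : E n => ⟪ν, s⟫ * fderiv ℝ (ph κ) s ν) =
        fun s => -(⟪ν, s⟫ ^ 2) * gg κ s := by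
      funext s
      rw [ph_fderiv]
      ring
    rw [h1]
    refine Continuous.integrable_of_hasCompactSupport
      ((((cont_inner ν).pow 2).neg).mul (gg_cont κ)) ?_
    exact (gg_cpt hκ).mul_left
  · exact ((cont_inner ν).mul hph).integrable_of_hasCompactSupport (ph_cpt hκ).mul_left
  · exact fun x _ => (innerSL ℝ ν).differentiable x
  · exact fun x _ => (ph_contDiff κ).differentiable (by simp) x

theorem int_gg {κ : ℝ} (hκ : 0 < κ) :
    (1 - κ) * ∫ s : E n, gg κ s ≤ n * ZZ n κ := by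
  have hi : ∀ i : Fin n, Integrable fun s : E n => ⟪EuclideanSpace.single i (1 : ℝ), s⟫ ^ 2 *
      gg κ s := by
    intro i
    exact Continuous.integrable_of_hasCompactSupport
      (((cont_inner _).pow 2).mul (gg_cont κ)) (gg_cpt hκ).mul_left
  have h1 : ∫ s : E n, ∑ i : Fin n, ⟪EuclideanSpace.single i (1 : ℝ), s⟫ ^ 2 * gg κ s =
      n * ZZ n κ := by
    rw [integral_finsetSum _ fun i _ => hi i]
    have : ∀ i : Fin n, ∫ s : E n, ⟪EuclideanSpace.single i (1 : ℝ), s⟫ ^ 2 * gg κ s = ZZ n κ :=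
      fun i => inner_sq_gg hκ _ (by simp)
    simp [this]
  rw [← h1, ← integral_const_mul]
  refine integral_mono ?_ ?_ ?_
  · exact ((gg_cont κ).integrable_of_hasCompactSupport (gg_cpt hκ)).const_mul _
  · exact integrable_finsetSum _ fun i _ => hi i
  · intro s
    change (1 - κ) * gg κ s ≤ ∑ i : Fin n, ⟪EuclideanSpace.single i (1 : ℝ), s⟫ ^ 2 * gg κ s
    rw [← Finset.sum_mul]
    by_cases h0 : gg κ s = 0
    · rw [h0]
      simp
    · have h2 := (gg_supp hκ s h0).1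
      have h3 : ∑ i : Fin n, ⟪EuclideanSpace.single i (1 : ℝ), s⟫ ^ 2 = ‖s‖ ^ 2 := by
        rw [EuclideanSpace.norm_sq_eq]
        refine Finset.sum_congr rfl fun i _ => ?_
        simp [EuclideanSpace.inner_single_left]
      rw [h3]
      exact mul_le_mul_of_nonneg_right h2 (gg_nonneg hκ s)

theorem t_KER : S_KER := by
  intro n κ hκ _
  refine ⟨ph_contDiff κ, fun s => ⟨Real.smoothTransition.nonneg _, Real.smoothTransition.le_one _⟩,
    ph_pos hκ, ph_cpt hκ, ?_, gg_cont κ, gg_cpt hκ, gg_nonneg hκ, gg_supp hκ, ph_fderiv κ,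
    inner_sq_gg hκ, inner_gg κ, int_gg hκ⟩
  exact (ph_contDiff κ).continuous.integral_pos_of_hasCompactSupport_nonneg_nonzero (ph_cpt hκ)
    (fun s => Real.smoothTransition.nonneg _) (x := 0) ((ph_pos hκ 0).2 (by simp)).ne'

end Pool.Agent.L7h77.RE
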