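import Pool.Agent.L7h86.RE.Stm

/-!
# Project RE: S_DOM (defining functions)
-/

set_option autoImplicit false

open Set Filter Topology Metric Function MeasureTheory
open scoped ContDiff RealInnerProductSpace

noncomputable section

namespace Pool.Agent.L7h77.RE

open Pool.Agent.L7h86.RE

theorem t_DOM : S_DOM := by
  intro n g hg
  obtain ⟨hgs, hgc, hgr⟩ := hg
  have hgcont : Continuous g := hgs.continuous
  refine ⟨?_, ?_⟩
  · apply Subset.antisymm
    · exact frontier_le_subset_eq hgcont continuous_const
    · intro x hx
      rw [(isClosed_le hgcont continuous_const).frontier_eq]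
      refine ⟨le_of_eq hx, fun hint => ?_⟩
      have hmax : IsLocalMax g x := by
        filter_upwards [mem_interior_iff_mem_nhds.1 hint] with y hy
        rw [show g x = 0 from hx]
        exact hy
      exact hgr x hx hmax.fderiv_eq_zero
  · obtain ⟨R0, hR0⟩ := hgc.isBounded.subset_closedBall (0 : E n)
    let R : ℝ := max R0 0
    have hR : {x | g x ≤ 0} ⊆ closedBall 0 R := hR0.trans (closedBall_subset_closedBall (le_max_left _ _))
    have hRnn : 0 ≤ R := le_max_right _ _
    let χ : ContDiffBump (0 : E n) := ⟨R + 1, R + 2, by linarith, by linarith⟩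
    let G : E n → ℝ := fun x => χ x * g x + (1 - χ x)
    have hGs : ContDiff ℝ ∞ G := (χ.contDiff.mul hgs).add (contDiff_const.sub χ.contDiff)
    have hGcont : Continuous G := hGs.continuous
    have hGin : ∀ x, ‖x‖ ≤ R + 1 → G x = g x := by
      intro x hx
      have : χ x = 1 := χ.one_of_mem_closedBall (by
        rw [mem_closedBall, dist_zero_right]
        exact hx)
      simp [G, this]
    have hGout : ∀ x, R + 2 ≤ ‖x‖ → G x = 1 := by
      intro x hx
      have : χ x = 0 := χ.zero_of_le_dist (by
        rw [dist_zero_right]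
        exact hx)
      simp [G, this]
    have hGpos : ∀ x, 0 < g x → 0 < G x := by
      intro x hx
      have h1 := χ.nonneg (x := x)
      have h2 := χ.le_one (x := x)
      change 0 < χ x * g x + (1 - χ x)
      rcases h1.eq_or_lt with h | h
      · rw [← h]
        norm_num
      · have := mul_pos h hx
        linarith
    have hbd : ∀ x, g x ≤ 0 → ‖x‖ ≤ R := by
      intro x hx
      have := hR hx
      rwa [mem_closedBall, dist_zero_right] at this
    have hsg : ∀ x, (G x < 0 ↔ g x < 0) ∧ (G x = 0 ↔ g x = 0) := by
      intro x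
      by_cases hx : g x ≤ 0
      · rw [hGin x (by linarith [hbd x hx])]
        exact ⟨Iff.rfl, Iff.rfl⟩
      · push Not at hx
        have := hGpos x hx
        exact ⟨⟨fun h => absurd h (by linarith), fun h => absurd h (by linarith)⟩,
          ⟨fun h => absurd h (by linarith), fun h => absurd h (by linarith)⟩⟩
    have hZin : ∀ m, G m = 0 → ‖m‖ ≤ R := fun m hm => hbd m ((hsg m).2.1 hm).le
    have hZc : IsCompact {m | G m = 0} := by
      refine (isCompact_closedBall (0 : E n) R).of_isClosed_subset
        (isClosed_eq hGcont continuous_const) ?_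
      intro m hm
      rw [mem_closedBall, dist_zero_right]
      exact hZin m hm
    have hdG : ∀ m, G m = 0 → fderiv ℝ G m ≠ 0 := by
      intro m hm
      have h1 : G =ᶠ[𝓝 m] g := by
        have h2 : ball (0 : E n) (R + 1) ∈ 𝓝 m := by
          apply isOpen_ball.mem_nhds
          rw [mem_ball, dist_zero_right]
          linarith [hZin m hm]
        filter_upwards [h2] with y hy
        apply hGin
        rw [mem_ball, dist_zero_right] at hy
        exact hy.le
      rw [h1.fderiv_eq]
      exact hgr m ((hsg m).2.1 hm)
    have hdcont : Continuous (fderiv ℝ G) := hGs.continuous_fderiv (by simp)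
    refine ⟨G, hGs, ⟨R + 2, hGout⟩, hsg, ?_, ?_⟩
    · rcases {m | G m = 0}.eq_empty_or_nonempty with he | hne
      · refine ⟨1, one_pos, fun m hm => ?_⟩
        have : m ∈ ({m | G m = 0} : Set (E n)) := hm
        rw [he] at this
        exact absurd this (by simp)
      · obtain ⟨m0, hm0, hmin⟩ := hZc.exists_isMinOn hne (hdcont.norm.continuousOn)
        have hc : 0 < ‖fderiv ℝ G m0‖ := norm_pos_iff.2 (hdG m0 hm0)
        have huc : UniformContinuousOn (fderiv ℝ G) (closedBall (0 : E n) (R + 1)) :=
          (isCompact_closedBall _ _).uniformContinuousOn_of_continuous hdcont.continuousOn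
        rw [Metric.uniformContinuousOn_iff] at huc
        obtain ⟨δ, hδ, hδ'⟩ := huc _ hc
        refine ⟨min (δ / 2) 1, lt_min (by linarith) one_pos, fun m hm => ?_⟩
        refine ⟨(InnerProductSpace.toDual ℝ (E n)).symm (fderiv ℝ G m), fun y hy => ?_⟩
        set ℓ := fderiv ℝ G m with hℓ
        set v := (InnerProductSpace.toDual ℝ (E n)).symm ℓ with hv
        have hℓv : ∀ u, ℓ u = ⟪v, u⟫ := by
          intro u
          rw [hv, InnerProductSpace.toDual_symm_apply]
        have hvn : ‖v‖ = ‖ℓ‖ := by rw [hv]; exact LinearIsometryEquiv.norm_map _ _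
        have h0 : ‖fderiv ℝ G m0‖ ≤ ‖ℓ‖ := hmin hm
        have hd : dist (fderiv ℝ G y) (fderiv ℝ G m) < ‖fderiv ℝ G m0‖ := by
          refine hδ' y ?_ m ?_ ?_
          · rw [mem_closedBall, dist_zero_right]
            have h3 : ‖y‖ ≤ ‖y - m‖ + ‖m‖ := by
              have := norm_add_le (y - m) m
              simpa using this
            have := hZin m hm
            have := hy.trans (min_le_right _ _)
            linarith
          · rw [mem_closedBall, dist_zero_right]
            linarith [hZin m hm]
          · rw [dist_eq_norm]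
            have := hy.trans (min_le_left _ _)
            linarith
        rw [dist_eq_norm] at hd
        have h4 : |(fderiv ℝ G y - ℓ) v| ≤ ‖fderiv ℝ G y - ℓ‖ * ‖v‖ :=
          (fderiv ℝ G y - ℓ).le_opNorm v
        have h5 : fderiv ℝ G y v = ‖v‖ ^ 2 + (fderiv ℝ G y - ℓ) v := by
          have : ℓ v = ‖v‖ ^ 2 := by rw [hℓv, real_inner_self_eq_norm_sq]
          rw [← this]
          simp
        have h6 : 0 < ‖v‖ := by rw [hvn]; linarith
        have h7 : ‖fderiv ℝ G y - ℓ‖ < ‖v‖ := by rw [hvn]; linarith
        rw [h5]
        have h8 := (abs_le.1 h4).1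
        nlinarith
    · intro ε hε
      let Y : Set (E n) := {y | ‖y‖ ≤ R + 2 ∧ ∀ m, G m = 0 → ε ≤ ‖y - m‖}
      have hYc : IsCompact Y := by
        refine (isCompact_closedBall (0 : E n) (R + 2)).of_isClosed_subset ?_ ?_
        · have : Y = {y | ‖y‖ ≤ R + 2} ∩ ⋂ (m) (_ : G m = 0), {y | ε ≤ ‖y - m‖} := by
            ext y
            simp [Y]
          rw [this]
          refine (isClosed_le continuous_norm continuous_const).inter ?_
          refine isClosed_iInter fun m => isClosed_iInter fun _ => ?_
          exact isClosed_le continuous_const (continuous_id.sub continuous_const).norm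
        · intro y hy
          rw [mem_closedBall, dist_zero_right]
          exact hy.1
      have hYpos : ∀ y ∈ Y, 0 < |G y| := by
        intro y hy
        rw [abs_pos]
        intro h0
        have := hy.2 y h0
        rw [sub_self, norm_zero] at this
        linarith
      have hk : ∃ c : ℝ, 0 < c ∧ ∀ y ∈ Y, c ≤ |G y| := by
        rcases Y.eq_empty_or_nonempty with he | hne
        · exact ⟨1, one_pos, fun y hy => by rw [he] at hy; exact absurd hy (by simp)⟩
        · obtain ⟨y0, hy0, hmin⟩ := hYc.exists_isMinOn hne (hGcont.abs.continuousOn)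
          exact ⟨|G y0|, hYpos y0 hy0, fun y hy => hmin hy⟩
      obtain ⟨c, hc, hcY⟩ := hk
      refine ⟨1 + 1 / c, by positivity, fun y hy => ?_⟩
      by_cases hyR : ‖y‖ ≤ R + 2
      · have h1 := hcY y ⟨hyR, hy⟩
        have h2 : (1 / c) * c ≤ (1 + 1 / c) * |G y| := by
          apply mul_le_mul _ h1 hc.le (by positivity)
          linarith
        rwa [one_div_mul_cancel hc.ne'] at h2
      · rw [hGout y (by linarith), abs_one, mul_one]
        have : 0 < 1 / c := by positivity
        linarith

end Pool.Agent.L7h77.RE
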