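import Pool.Agent.L7h86.RE.Stm

/-!
# Project RE: S_SMV (smoothness of the mollification)
-/

set_option autoImplicit false

open Set Filter Topology Metric Function MeasureTheory
open scoped ContDiff RealInnerProductSpace Convolution

noncomputable section

namespace Pool.Agent.L7h77.RE

open Pool.Agent.L7h86.RE

theorem smooth_vv {n : ℕ} {κ : ℝ} {w : E n → ℝ} (hw : ContDiff ℝ ∞ w)
    (hph : ContDiff ℝ ∞ (ph κ : E n → ℝ)) (h0 : ∀ s : E n, ¬ ‖s‖ < 1 → ph κ s = 0) :
    ContDiff ℝ ∞ (vv κ w : E n × ℝ → ℝ) := by
  let χ : ContDiffBump (0 : E n) := ⟨1, 2, one_pos, one_lt_two⟩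
  let g : E n × ℝ → E n → ℝ := fun p y => χ y * w (p.1 - p.2 • y)
  have hg : ContDiff ℝ ∞ (↿g : (E n × ℝ) × E n → ℝ) := by
    change ContDiff ℝ ∞ fun z : (E n × ℝ) × E n => χ z.2 * w (z.1.1 - z.1.2 • z.2)
    refine ContDiff.mul ?_ ?_
    · exact χ.contDiff.comp contDiff_snd
    · exact hw.comp ((contDiff_fst.comp contDiff_fst).sub
        ((contDiff_snd.comp contDiff_fst).smul contDiff_snd))
  have h1 : ContDiffOn ℝ ∞ (fun q : (E n × ℝ) × E n =>
      ((ph κ : E n → ℝ) ⋆[ContinuousLinearMap.mul ℝ ℝ, volume] g q.1) q.2) (univ ×ˢ univ) :=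
    contDiffOn_convolution_right_with_param (n := ⊤) (ContinuousLinearMap.mul ℝ ℝ)
      (k := closedBall 0 2) isOpen_univ (isCompact_closedBall _ _) (by
        intro p x _ hx
        have : χ x = 0 := by
          apply χ.zero_of_le_dist
          rw [mem_closedBall, not_le] at hx
          exact hx.le
        simp [g, this]) (hph.continuous.locallyIntegrable) hg.contDiffOn
  have h2 : ContDiff ℝ ∞ (fun q : (E n × ℝ) × E n =>
      ((ph κ : E n → ℝ) ⋆[ContinuousLinearMap.mul ℝ ℝ, volume] g q.1) q.2) := by
    rw [univ_prod_univ, contDiffOn_univ] at h1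
    exact h1
  have h3 : (vv κ w : E n × ℝ → ℝ) = (fun q : (E n × ℝ) × E n =>
      ((ph κ : E n → ℝ) ⋆[ContinuousLinearMap.mul ℝ ℝ, volume] g q.1) q.2) ∘
      fun q => (q, (0 : E n)) := by
    funext q
    change vv κ w q = ((ph κ : E n → ℝ) ⋆[ContinuousLinearMap.mul ℝ ℝ, volume] g q) 0
    unfold vv convolution
    congr 1
    funext s
    change ph κ s * w (q.1 + q.2 • s) = ph κ s * (χ (0 - s) * w (q.1 - q.2 • (0 - s)))
    by_cases hs : ‖s‖ < 1
    · have : χ (0 - s) = 1 := by
        apply χ.one_of_mem_closedBall
        rw [mem_closedBall, zero_sub, dist_zero_right, norm_neg]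
        exact hs.le
      rw [this, one_mul, zero_sub, smul_neg, sub_neg_eq_add]
    · rw [h0 s hs, zero_mul, zero_mul]
  rw [h3]
  exact ContDiff.comp h2 (contDiff_id.prodMk contDiff_const)

theorem t_SMV (hK : S_KER) : S_SMV := by
  intro n κ w hκ hκ1 hw
  obtain ⟨hph, hph01, hphpos, hphc, -, hggc, hggs, -, -, hphd, -, -, -⟩ := hK n κ hκ hκ1
  have hphcont : Continuous (ph κ : E n → ℝ) := hph.continuous
  have hwd : ∀ y, HasFDerivAt w (fderiv ℝ w y) y := fun y =>
    (hw.differentiable (by simp) y).hasFDerivAt
  have hdw : Continuous (fderiv ℝ w) := hw.continuous_fderiv (by simp)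
  -- derivative
  have hder : ∀ (x : E n) (r : ℝ), HasFDerivAt (fun y => vv κ w (y, r))
      (∫ s : E n, ph κ s • fderiv ℝ w (x + r • s)) x := by
    intro x r
    have hcomp : IsCompact (closedBall x (1 + |r|)) := isCompact_closedBall _ _
    obtain ⟨C, hC⟩ := hcomp.exists_bound_of_continuousOn hdw.continuousOn
    have hintF : ∀ y : E n, Integrable fun s : E n => ph κ s * w (y + r • s) := by
      intro y
      refine Continuous.integrable_of_hasCompactSupport ?_ hphc.mul_right
      exact hphcont.mul (hw.continuous.comp (continuous_const.add (continuous_id.const_smul r)))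
    refine hasFDerivAt_integral_of_dominated_of_fderiv_le (μ := volume)
      (F := fun (y : E n) (s : E n) => ph κ s * w (y + r • s))
      (F' := fun (y : E n) (s : E n) => ph κ s • fderiv ℝ w (y + r • s))
      (bound := fun s => ph κ s * C) (s := ball x 1) (ball_mem_nhds x one_pos) ?_ (hintF x) ?_ ?_
      ?_ ?_
    · exact Eventually.of_forall fun y => (hintF y).aestronglyMeasurable
    · refine Continuous.aestronglyMeasurable ?_
      exact hphcont.smul (hdw.comp (continuous_const.add (continuous_id.const_smul r)))
    · refine Eventually.of_forall fun s y hy => ?_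
      rw [norm_smul, Real.norm_of_nonneg (hph01 s).1]
      by_cases hs : ‖s‖ < 1
      · refine mul_le_mul_of_nonneg_left (hC _ ?_) (hph01 s).1
        rw [mem_closedBall, dist_eq_norm]
        rw [mem_ball, dist_eq_norm] at hy
        have e : y + r • s - x = (y - x) + r • s := by abel
        rw [e]
        refine (norm_add_le _ _).trans ?_
        rw [norm_smul, Real.norm_eq_abs]
        have := mul_le_of_le_one_right (abs_nonneg r) hs.le
        linarith
      · have h0 : ph κ s = 0 := by
          have h1 := (hphpos s).not.2 hs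
          exact le_antisymm (not_lt.1 h1) (hph01 s).1
        simp [h0]
    · exact (hphcont.integrable_of_hasCompactSupport hphc).mul_const C
    · refine Eventually.of_forall fun s y _ => ?_
      have h1 : HasFDerivAt (fun y : E n => w (y + r • s)) (fderiv ℝ w (y + r • s)) y := by
        have h2 : HasFDerivAt (fun y : E n => y + r • s) (ContinuousLinearMap.id ℝ (E n)) y :=
          (hasFDerivAt_id y).add_const _
        have := (hwd (y + r • s)).comp y h2
        rw [ContinuousLinearMap.comp_id] at this
        exact this
      exact h1.const_mul (ph κ s)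
  have hintD : ∀ (x : E n) (r : ℝ), Integrable fun s : E n => ph κ s • fderiv ℝ w (x + r • s) := by
    intro x r
    refine Continuous.integrable_of_hasCompactSupport ?_ hphc.smul_right
    exact hphcont.smul (hdw.comp (continuous_const.add (continuous_id.const_smul r)))
  have hform : ∀ (x ν : E n) (r : ℝ), fderiv ℝ (fun y => vv κ w (y, r)) x ν =
      ∫ s : E n, ph κ s * fderiv ℝ w (x + r • s) ν := by
    intro x ν r
    rw [(hder x r).fderiv, ContinuousLinearMap.integral_apply (hintD x r)]
    rfl
  refine ⟨?_, hform, ?_⟩
  · refine smooth_vv hw hph fun s hs => ?_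
    have h1 := (hphpos s).not.2 hs
    exact le_antisymm (not_lt.1 h1) (hph01 s).1
  · intro x ν r
    rw [hform, ← integral_const_mul]
    have hd : ∀ s : E n, fderiv ℝ (fun s : E n => w (x + r • s)) s ν =
        r * fderiv ℝ w (x + r • s) ν := by
      intro s
      have h2 : HasFDerivAt (fun s : E n => x + r • s) (r • ContinuousLinearMap.id ℝ (E n)) s :=
        ((hasFDerivAt_id s).const_smul r).const_add x
      have h3 := (hwd (x + r • s)).comp s h2
      have h4 : fderiv ℝ (fun s : E n => w (x + r • s)) s =
          (fderiv ℝ w (x + r • s)).comp (r • ContinuousLinearMap.id ℝ (E n)) := h3.fderiv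
      rw [h4]
      simp
    have hwc : Continuous fun s : E n => w (x + r • s) :=
      hw.continuous.comp (continuous_const.add (continuous_id.const_smul r))
    have hws : ContDiff ℝ ∞ fun s : E n => w (x + r • s) :=
      hw.comp (contDiff_const.add (contDiff_id.const_smul r))
    have key := integral_mul_fderiv_eq_neg_fderiv_mul_of_integrable (μ := volume)
      (f := (ph κ : E n → ℝ)) (g := fun s : E n => w (x + r • s)) (v := ν) ?_ ?_ ?_ ?_ ?_
    · simp_rw [hd] at key
      calc ∫ s : E n, r * (ph κ s * fderiv ℝ w (x + r • s) ν)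
          = ∫ s : E n, ph κ s * (r * fderiv ℝ w (x + r • s) ν) := by
            congr 1
            funext s
            ring
        _ = _ := key
        _ = _ := by
            rw [← integral_neg]
            congr 1
            funext s
            rw [hphd]
            ring
    · have h1 : (fun s : E n => fderiv ℝ (ph κ) s ν * w (x + r • s)) =
          fun s => -(⟪ν, s⟫ * gg κ s) * w (x + r • s) := by
        funext s
        rw [hphd]
      rw [h1]
      refine Continuous.integrable_of_hasCompactSupport
        (((continuous_const.inner continuous_id).mul hggc).neg.mul hwc) ?_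
      exact (hggs.mul_left.neg).mul_right
    · simp_rw [hd]
      refine Continuous.integrable_of_hasCompactSupport ?_ hphc.mul_right
      refine hphcont.mul (continuous_const.mul ?_)
      exact (hdw.comp (continuous_const.add (continuous_id.const_smul r))).clm_apply
        continuous_const
    · exact (hphcont.mul hwc).integrable_of_hasCompactSupport hphc.mul_right
    · exact fun x _ => hph.differentiable (by simp) x
    · exact fun x _ => hws.differentiable (by simp) x

end Pool.Agent.L7h77.RE
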