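import Pool.Agent.L7h86.RE.Stm

/-!
# Project RE: S_STP (facts on the smooth step function)
-/

set_option autoImplicit false

open Set Filter Topology

namespace Pool.Agent.L7h77.RE

open Pool.Agent.L7h86.RE

theorem glue_lt {x : ℝ} (hx : 1 / 2 < x) : expNegInvGlue (1 - x) < expNegInvGlue x := by
  by_cases h : 1 - x ≤ 0
  · rw [expNegInvGlue.zero_of_nonpos h]
    exact expNegInvGlue.pos_of_pos (by linarith)
  · push Not at h
    have h2 : ¬ x ≤ 0 := by linarith
    unfold expNegInvGlue
    rw [if_neg (not_le.2 h), if_neg h2]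
    apply Real.exp_lt_exp.2
    have h3 : x⁻¹ < (1 - x)⁻¹ := by
      apply inv_strictAnti₀ h
      linarith
    linarith

theorem glue_hasDerivAt : HasDerivAt expNegInvGlue (Real.exp (-2) * 4) (1 / 2) := by
  have h1 : HasDerivAt (fun x : ℝ => Real.exp (-x⁻¹)) (Real.exp (-2) * 4) (1 / 2) := by
    have h2 : HasDerivAt (fun x : ℝ => -x⁻¹) 4 (1 / 2) := by
      have h3 := (hasDerivAt_inv (x := (1 / 2 : ℝ)) (by norm_num)).neg
      have e : -(-((1 / 2 : ℝ) ^ 2)⁻¹) = 4 := by norm_num
      rw [e] at h3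
      exact h3
    have h4 := h2.exp
    have e : (-(1 / 2 : ℝ)⁻¹) = -2 := by norm_num
    rw [e] at h4
    exact h4
  refine h1.congr_of_eventuallyEq ?_
  filter_upwards [lt_mem_nhds (show (0 : ℝ) < 1 / 2 by norm_num)] with x hx
  unfold expNegInvGlue
  rw [if_neg (not_le.2 hx)]

theorem t_STP : S_STP := by
  refine ⟨?_, ?_, ?_, fun x => Real.smoothTransition.monotone.deriv_nonneg, ?_⟩
  · intro x hx
    unfold Real.smoothTransition
    have h1 := glue_lt hx
    have h2 := expNegInvGlue.nonneg (1 - x)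
    rw [lt_div_iff₀ (by linarith)]
    linarith
  · intro x hx
    unfold Real.smoothTransition
    have h1 := glue_lt (x := 1 - x) (by linarith)
    rw [sub_sub_cancel] at h1
    have h2 := expNegInvGlue.nonneg x
    rw [div_lt_iff₀ (by linarith)]
    linarith
  · unfold Real.smoothTransition
    have h1 : expNegInvGlue (1 / 2 : ℝ) ≠ 0 := (expNegInvGlue.pos_of_pos (by norm_num)).ne'
    rw [show (1 - 1 / 2 : ℝ) = 1 / 2 by norm_num]
    field_simp
    norm_num
  · have h1 := glue_hasDerivAt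
    have h2 : HasDerivAt (fun x : ℝ => expNegInvGlue (1 - x)) (-(Real.exp (-2) * 4)) (1 / 2) := by
      have h3 : HasDerivAt expNegInvGlue (Real.exp (-2) * 4) (1 - 1 / 2) := by
        rw [show (1 - 1 / 2 : ℝ) = 1 / 2 by norm_num]
        exact h1
      have h4 : HasDerivAt (fun x : ℝ => 1 - x) (-1) (1 / 2) := by
        simpa using (hasDerivAt_id (1 / 2 : ℝ)).const_sub 1
      have h5 := h3.comp (1 / 2 : ℝ) h4
      rw [mul_neg_one] at h5
      exact h5
    have hp : 0 < expNegInvGlue (1 / 2 : ℝ) := expNegInvGlue.pos_of_pos (by norm_num)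
    have e : (1 - 1 / 2 : ℝ) = 1 / 2 := by norm_num
    have h5 : HasDerivAt (fun x : ℝ => expNegInvGlue x / (expNegInvGlue x + expNegInvGlue (1 - x)))
        ((Real.exp (-2) * 4 * (expNegInvGlue (1 / 2) + expNegInvGlue (1 - 1 / 2)) -
          expNegInvGlue (1 / 2) * (Real.exp (-2) * 4 + -(Real.exp (-2) * 4))) /
          (expNegInvGlue (1 / 2) + expNegInvGlue (1 - 1 / 2)) ^ 2) (1 / 2) :=
      h1.div (h1.add h2) (by rw [e]; positivity)
    have h6 : deriv Real.smoothTransition (1 / 2) = _ := h5.deriv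
    rw [h6, e]
    have h7 := Real.exp_pos (-2)
    rw [add_neg_cancel, mul_zero, sub_zero]
    positivity

end Pool.Agent.L7h77.RE
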